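import Pool.Agent.V5helper50.RC.Stm

set_option autoImplicit false

open Finset

namespace Pool.Agent.V5helper11.RC

open Pool.Agent.V5helper50.RS Pool.Agent.V5helper50.RC

theorem exp_neg_le (y : ℝ) (h0 : 0 ≤ y) (h1 : y ≤ 1) : Real.exp (-y) ≤ 1 - 5 / 8 * y := by
  have h := convexOn_exp.2 (Set.mem_univ (0 : ℝ)) (Set.mem_univ (-1 : ℝ)) (sub_nonneg.2 h1) h0 (by ring)
  simp only [smul_eq_mul, Real.exp_zero] at h
  have h2 : (1 - y) * 0 + y * (-1 : ℝ) = -y := by ring
  rw [h2] at h
  have h3 : Real.exp (-1) ≤ 3 / 8 := by
    rw [Real.exp_neg]
    have h4 := Real.exp_one_gt_d9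
    rw [inv_le_comm₀ (Real.exp_pos _) (by norm_num)]
    norm_num
    linarith
  nlinarith

/-- averaging over one of the coordinates does not change the average -/
theorem av_avg {T : ℕ → ℕ} (hT : ∀ x, 0 < T x) (n b : ℕ) (hb : b < n) (F : (ℕ → ℕ) → ℝ) :
    av T n F = av T n (fun t => (∑ v ∈ range (T b), F (Function.update t b v)) / T b) := by
  induction n generalizing F with
  | zero => omega
  | succ n ih =>
    show av T n (fun t => (∑ v ∈ range (T n), F (Function.update t n v)) / T n) =
      av T n (fun t => (∑ w ∈ range (T n), (∑ v ∈ range (T b),
        F (Function.update (Function.update t n w) b v)) / T b) / T n)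
    by_cases hbn : b = n
    · subst hbn
      congr 1
      funext t
      have h0 : (T b : ℝ) ≠ 0 := by exact_mod_cast (hT b).ne'
      have h1 : ∀ w ∈ range (T b), (∑ v ∈ range (T b),
          F (Function.update (Function.update t b w) b v)) / (T b : ℝ) =
          (∑ v ∈ range (T b), F (Function.update t b v)) / (T b : ℝ) := by
        intro w _
        congr 1
        apply sum_congr rfl
        intro v _
        rw [Function.update_idem]
      rw [sum_congr rfl h1, sum_const, card_range, nsmul_eq_mul]
      field_simp
    · rw [ih (by omega)]
      congr 1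
      funext t
      rw [← sum_div, ← sum_div, sum_comm]
      have h1 : ∀ w ∈ range (T n), ∀ v ∈ range (T b),
          F (Function.update (Function.update t n w) b v) =
          F (Function.update (Function.update t b v) n w) := by
        intro w _ v _
        rw [Function.update_comm (Ne.symm hbn)]
      have h2 : (∑ w ∈ range (T n), ∑ v ∈ range (T b),
          F (Function.update (Function.update t n w) b v)) =
          ∑ w ∈ range (T n), ∑ v ∈ range (T b), F (Function.update (Function.update t b v) n w) :=
        sum_congr rfl (fun w hw => sum_congr rfl (h1 w hw))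
      rw [h2]
      ring

theorem t_CHL2 : S_CHL2 := by
  intro T hT n₁ n₂ n f G B m h12 h2n hB hf hdep hG hm
  classical
  set Mn : ℕ → (ℕ → ℕ) → ℝ := fun x t => (∑ v ∈ range (T x), f x (Function.update t x v)) / T x with hMn
  set H : ℕ → (ℕ → ℕ) → ℝ := fun n' t => (if G t then (1 : ℝ) else 0) *
    Real.exp (5 / 8 * (∑ x ∈ Ico n₁ n', Mn x t) / B - (∑ x ∈ Ico n₁ n', f x t) / B) with hH
  have key : ∀ n', n₁ ≤ n' → n' ≤ n₂ → av T n (H n') ≤ 1 := by
    intro n' h0n'
    induction n', h0n' using Nat.le_induction with
    | base =>
      intro _
      rw [← av_const hT n 1]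
      apply av_mono hT
      intro t _
      simp only [hH, Ico_self, sum_empty]
      split_ifs <;> simp
    | succ n' h0n' ih =>
      intro hn'
      have h0 : (0 : ℝ) < T n' := by exact_mod_cast hT n'
      refine le_trans ?_ (ih (by omega))
      rw [av_avg hT n n' (by omega) (H (n' + 1))]
      apply av_mono hT
      intro t ht
      by_cases hGt : G t
      swap
      · -- both sides are zero
        have h1 : ∀ v ∈ range (T n'), H (n' + 1) (Function.update t n' v) = 0 := by
          intro v _
          have : ¬ G (Function.update t n' v) := by
            rw [hG (Function.update t n' v) t (fun y _ hy => Function.update_of_ne (by omega) _ _)]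
            exact hGt
          simp only [hH, if_neg this, zero_mul]
        rw [sum_congr rfl h1]
        simp [hH, hGt]
      · have hGu : ∀ v, G (Function.update t n' v) := by
          intro v
          rw [hG (Function.update t n' v) t (fun y _ hy => Function.update_of_ne (by omega) _ _)]
          exact hGt
        have hMsame : ∀ v, ∀ x ∈ Ico n₁ (n' + 1), Mn x (Function.update t n' v) = Mn x t := by
          intro v x hx
          have hx' := mem_Ico.1 hx
          simp only [hMn]
          congr 1
          apply sum_congr rfl
          intro u _
          apply hdep x hx'.1 (by omega)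
          · intro y _ hy
            rw [Function.update_of_ne (by omega), Function.update_of_ne (by omega),
              Function.update_of_ne (by omega)]
          · rw [Function.update_self, Function.update_self]
        have hfsame : ∀ v, ∀ x ∈ Ico n₁ n', f x (Function.update t n' v) = f x t := by
          intro v x hx
          have hx' := mem_Ico.1 hx
          apply hdep x hx'.1 (by omega)
          · intro y _ hy
            rw [Function.update_of_ne (by omega)]
          · rw [Function.update_of_ne (by omega)]
        have hval : ∀ v ∈ range (T n'), H (n' + 1) (Function.update t n' v) ≤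
            H n' t * Real.exp (5 / 8 * Mn n' t / B) * (1 - 5 / 8 * (f n' (Function.update t n' v) / B)) := by
          intro v hv
          have hv' := mem_range.1 hv
          have hadm : ∀ y, Function.update t n' v y < T y := by
            intro y
            by_cases hy : y = n'
            · subst hy
              rw [Function.update_self]
              exact hv'
            · rw [Function.update_of_ne hy]
              exact ht y
          have hfB := (hm (Function.update t n' v) hadm (hGu v)).1 n' h0n' (by omega)
          have hf0 := hf n' h0n' (by omega) (Function.update t n' v)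
          have h1 := exp_neg_le (f n' (Function.update t n' v) / B) (div_nonneg hf0 hB.le)
            ((div_le_one hB).2 hfB)
          simp only [hH, if_pos (hGu v), if_pos hGt, one_mul]
          rw [sum_congr rfl (hMsame v), sum_Ico_succ_top h0n', sum_Ico_succ_top h0n',
            sum_congr rfl (hfsame v)]
          have h2 : 5 / 8 * (∑ x ∈ Ico n₁ n', Mn x t + Mn n' t) / B -
              (∑ x ∈ Ico n₁ n', f x t + f n' (Function.update t n' v)) / B =
              (5 / 8 * (∑ x ∈ Ico n₁ n', Mn x t) / B - (∑ x ∈ Ico n₁ n', f x t) / B) +
              5 / 8 * Mn n' t / B + -(f n' (Function.update t n' v) / B) := by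
            field_simp
            ring
          rw [h2, Real.exp_add, Real.exp_add]
          exact mul_le_mul_of_nonneg_left h1 (by positivity)
        rw [div_le_iff₀ h0]
        refine (sum_le_sum hval).trans ?_
        rw [← mul_sum, sum_sub_distrib, ← mul_sum, ← sum_div, sum_const, card_range, nsmul_eq_mul, mul_one]
        have hH0 : 0 ≤ H n' t := by
          simp only [hH]
          split_ifs <;> positivity
        have h3 : (T n' : ℝ) - 5 / 8 * ((∑ v ∈ range (T n'), f n' (Function.update t n' v)) / B) =
            (1 - 5 / 8 * Mn n' t / B) * T n' := by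
          simp only [hMn]
          field_simp
        rw [h3]
        have h4 : Real.exp (5 / 8 * Mn n' t / B) * (1 - 5 / 8 * Mn n' t / B) ≤ 1 := by
          have h5 := Real.add_one_le_exp (-(5 / 8 * Mn n' t / B))
          calc Real.exp (5 / 8 * Mn n' t / B) * (1 - 5 / 8 * Mn n' t / B)
              ≤ Real.exp (5 / 8 * Mn n' t / B) * Real.exp (-(5 / 8 * Mn n' t / B)) :=
                mul_le_mul_of_nonneg_left (by linarith) (Real.exp_pos _).le
            _ = 1 := by rw [← Real.exp_add]; simp
        calc H n' t * Real.exp (5 / 8 * Mn n' t / B) * ((1 - 5 / 8 * Mn n' t / B) * T n')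
            = H n' t * (Real.exp (5 / 8 * Mn n' t / B) * (1 - 5 / 8 * Mn n' t / B)) * T n' := by ring
          _ ≤ H n' t * 1 * T n' := by gcongr
          _ = H n' t * T n' := by ring
  have hfin : pr T n (fun t => G t ∧ ∑ x ∈ Ico n₁ n₂, f x t < m / 2) ≤
      av T n (fun t => Real.exp (-(m / (8 * B))) * H n₂ t) := by
    unfold pr
    apply av_mono hT
    intro t ht
    split_ifs with hE
    · obtain ⟨hE1, hE2⟩ := hE
      have h1 := (hm t ht hE1).2
      simp only [hH, if_pos hE1, one_mul]
      rw [← Real.exp_add]
      apply Real.one_le_exp
      have h2 : 5 / 8 * m / B ≤ 5 / 8 * (∑ x ∈ Ico n₁ n₂, Mn x t) / B := by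
        gcongr
      have h3 : (∑ x ∈ Ico n₁ n₂, f x t) / B ≤ (m / 2) / B := by
        gcongr
      have h4 : 5 / 8 * m / B - (m / 2) / B = m / (8 * B) := by
        field_simp
        ring
      linarith
    · simp only [hH]
      split_ifs <;> positivity
  refine hfin.trans ?_
  rw [av_smul]
  calc Real.exp (-(m / (8 * B))) * av T n (H n₂) ≤ Real.exp (-(m / (8 * B))) * 1 :=
        mul_le_mul_of_nonneg_left (key n₂ h12 le_rfl) (Real.exp_pos _).le
    _ = _ := mul_one _

end Pool.Agent.V5helper11.RC
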