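import Pool.Agent.V5helper50.RC.Stm

set_option autoImplicit false

open Finset

namespace Pool.Agent.V5helper11.RC

open Pool.Agent.V5helper50.RS Pool.Agent.V5helper50.RC

theorem exp_le_two (y : ℝ) (h0 : 0 ≤ y) (h1 : y ≤ 1) : Real.exp y ≤ 1 + 2 * y := by
  have h := Real.abs_exp_sub_one_sub_id_le (x := y) (by rw [abs_of_nonneg h0]; exact h1)
  have h2 := (abs_le.1 h).2
  nlinarith

theorem t_CHU2 : S_CHU2 := by
  intro T hT n f B lam μ hB hf hdep hμ
  classical
  set g : ℕ → (ℕ → ℕ) → ℝ := fun x t => min (f x t / B) 1 with hg
  set c : ℕ → (ℕ → ℕ) → ℝ := fun x t => (∑ v ∈ range (T x), f x (Function.update t x v)) / T x with hc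
  have hcdep : ∀ x < n, ∀ t t' : ℕ → ℕ, (∀ y < x, t y = t' y) → c x t = c x t' := by
    intro x hx t t' htt
    simp only [hc]
    congr 1
    apply sum_congr rfl
    intro v _
    apply hdep x hx
    intro y hy
    by_cases hyx : y = x
    · subst hyx
      rw [Function.update_self, Function.update_self]
    · rw [Function.update_of_ne hyx, Function.update_of_ne hyx]
      exact htt y (by omega)
  have key : ∀ n' ≤ n, av T n' (fun t => Real.exp (∑ x ∈ range n', (g x t - 2 * (c x t / B)))) ≤ 1 := by
    intro n'
    induction n' with
    | zero => intro _; simp [av]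
    | succ n' ih =>
      intro hn'
      have ih' := ih (by omega)
      have h0 : (0 : ℝ) < T n' := by exact_mod_cast hT n'
      refine le_trans ?_ ih'
      show av T n' (fun t => (∑ v ∈ range (T n'),
        Real.exp (∑ x ∈ range (n' + 1), (g x (Function.update t n' v) -
          2 * (c x (Function.update t n' v) / B)))) / T n') ≤ _
      apply av_mono hT
      intro t ht
      have hsame : ∀ v, ∀ x ∈ range n', (g x (Function.update t n' v) -
          2 * (c x (Function.update t n' v) / B)) = g x t - 2 * (c x t / B) := by
        intro v x hx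
        have hx' := mem_range.1 hx
        have h1 : g x (Function.update t n' v) = g x t := by
          simp only [hg]
          rw [hdep x (by omega) (Function.update t n' v) t
            (fun y hy => Function.update_of_ne (by omega) _ _)]
        have h2 : c x (Function.update t n' v) = c x t :=
          hcdep x (by omega) _ _ (fun y hy => Function.update_of_ne (by omega) _ _)
        rw [h1, h2]
      have hcn : ∀ v, c n' (Function.update t n' v) = c n' t := fun v =>
        hcdep n' (by omega) _ _ (fun y hy => Function.update_of_ne (by omega) _ _)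
      have h2 : ∀ v ∈ range (T n'), Real.exp (∑ x ∈ range (n' + 1), (g x (Function.update t n' v) -
          2 * (c x (Function.update t n' v) / B))) ≤
          Real.exp (∑ x ∈ range n', (g x t - 2 * (c x t / B))) * Real.exp (-(2 * (c n' t / B))) *
            (1 + 2 * (f n' (Function.update t n' v) / B)) := by
        intro v hv
        have hnn : 0 ≤ f n' (Function.update t n' v) / B := div_nonneg (hf n' (by omega) _) hB.le
        have h3 : 0 ≤ g n' (Function.update t n' v) := le_min hnn zero_le_one
        have h4 : g n' (Function.update t n' v) ≤ 1 := min_le_right _ _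
        have h5 : g n' (Function.update t n' v) ≤ f n' (Function.update t n' v) / B := min_le_left _ _
        have h6 := exp_le_two _ h3 h4
        rw [sum_range_succ, Real.exp_add, sum_congr rfl (hsame v), hcn v, mul_assoc]
        apply mul_le_mul_of_nonneg_left _ (Real.exp_pos _).le
        rw [sub_eq_add_neg, Real.exp_add, mul_comm]
        apply mul_le_mul_of_nonneg_left _ (Real.exp_pos _).le
        linarith
      have h7 : (∑ v ∈ range (T n'), Real.exp (∑ x ∈ range (n' + 1), (g x (Function.update t n' v) -
          2 * (c x (Function.update t n' v) / B)))) / T n' ≤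
          Real.exp (∑ x ∈ range n', (g x t - 2 * (c x t / B))) * Real.exp (-(2 * (c n' t / B))) *
            (1 + 2 * (c n' t / B)) := by
        rw [div_le_iff₀ h0]
        refine (sum_le_sum h2).trans (le_of_eq ?_)
        rw [← mul_sum, sum_add_distrib, ← mul_sum, ← sum_div, sum_const, card_range, nsmul_eq_mul]
        have h9 : (T n' : ℝ) * 1 + 2 * ((∑ v ∈ range (T n'), f n' (Function.update t n' v)) / B) =
            (1 + 2 * (c n' t / B)) * T n' := by
          simp only [hc]
          field_simp
        rw [h9, ← mul_assoc]
      refine h7.trans ?_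
      rw [mul_assoc]
      have h8 : Real.exp (-(2 * (c n' t / B))) * (1 + 2 * (c n' t / B)) ≤ 1 := by
        have h10 := Real.add_one_le_exp (2 * (c n' t / B))
        calc Real.exp (-(2 * (c n' t / B))) * (1 + 2 * (c n' t / B))
            ≤ Real.exp (-(2 * (c n' t / B))) * Real.exp (2 * (c n' t / B)) :=
              mul_le_mul_of_nonneg_left (by linarith) (Real.exp_pos _).le
          _ = 1 := by rw [← Real.exp_add]; simp
      calc Real.exp (∑ x ∈ range n', (g x t - 2 * (c x t / B))) *
            (Real.exp (-(2 * (c n' t / B))) * (1 + 2 * (c n' t / B)))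
          ≤ Real.exp (∑ x ∈ range n', (g x t - 2 * (c x t / B))) * 1 :=
            mul_le_mul_of_nonneg_left h8 (Real.exp_pos _).le
        _ = _ := mul_one _
  have hfin : pr T n (fun t => (∀ x < n, f x t ≤ B) ∧ 2 * μ + lam * B ≤ ∑ x ∈ range n, f x t) ≤
      av T n (fun t => Real.exp (-lam) * Real.exp (∑ x ∈ range n, (g x t - 2 * (c x t / B)))) := by
    unfold pr
    apply av_mono hT
    intro t ht
    split_ifs with hE
    · obtain ⟨hE1, hE2⟩ := hE
      rw [← Real.exp_add]
      apply Real.one_le_exp
      have h1 : ∑ x ∈ range n, g x t = (∑ x ∈ range n, f x t) / B := by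
        rw [sum_div]
        apply sum_congr rfl
        intro x hx
        simp only [hg]
        apply min_eq_left
        rw [div_le_one hB]
        exact hE1 x (mem_range.1 hx)
      have h2 : (2 * μ + lam * B) / B ≤ (∑ x ∈ range n, f x t) / B := by
        gcongr
      have h3 : (2 * μ + lam * B) / B = 2 * (μ / B) + lam := by
        field_simp
      have h4 : ∑ x ∈ range n, c x t / B ≤ μ / B := by
        rw [← sum_div]
        have := hμ t ht
        gcongr
      rw [sum_sub_distrib, ← mul_sum, h1]
      linarith
    · positivity
  refine hfin.trans ?_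
  rw [av_smul]
  calc Real.exp (-lam) * av T n (fun t => Real.exp (∑ x ∈ range n, (g x t - 2 * (c x t / B))))
      ≤ Real.exp (-lam) * 1 :=
        mul_le_mul_of_nonneg_left (key n le_rfl) (Real.exp_pos _).le
    _ = Real.exp (-lam) := mul_one _

end Pool.Agent.V5helper11.RC
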